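import Pool.Agent.W500.CS.Stm2

set_option autoImplicit false

open MeasureTheory Polynomial Metric Set Filter Topology
open scoped ComplexConjugate

/-! CQ-REL: the two linear relations between the densities -/

namespace Pool.Agent.W637.CQ.REL

open Pool.Agent.W500.CS
open Pool.Agent.H586R3.CT (CT)
open Pool.Agent.Split938 (dbar)

theorem fd_re {f : ℂ → ℂ} {z : ℂ} (hf : DifferentiableAt ℝ f z) (v : ℂ) :
    fderiv ℝ (fun w => (f w).re) z v = (fderiv ℝ f z v).re := by
  have h : HasFDerivAt (fun w => (f w).re) (Complex.reCLM.comp (fderiv ℝ f z)) z :=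
    (Complex.reCLM.hasFDerivAt (x := f z)).comp z hf.hasFDerivAt
  rw [h.fderiv]; rfl

theorem fd_im {f : ℂ → ℂ} {z : ℂ} (hf : DifferentiableAt ℝ f z) (v : ℂ) :
    fderiv ℝ (fun w => (f w).im) z v = (fderiv ℝ f z v).im := by
  have h : HasFDerivAt (fun w => (f w).im) (Complex.imCLM.comp (fderiv ℝ f z)) z :=
    (Complex.imCLM.hasFDerivAt (x := f z)).comp z hf.hasFDerivAt
  rw [h.fderiv]; rfl

theorem fd_of {φ : ℂ → ℝ} {z : ℂ} (hf : DifferentiableAt ℝ φ z) (v : ℂ) :
    fderiv ℝ (fun w => (φ w : ℂ)) z v = ((fderiv ℝ φ z v : ℝ) : ℂ) := by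
  have h : HasFDerivAt (fun w => (φ w : ℂ)) (Complex.ofRealCLM.comp (fderiv ℝ φ z)) z :=
    (Complex.ofRealCLM.hasFDerivAt (x := φ z)).comp z hf.hasFDerivAt
  rw [h.fderiv]; rfl

theorem cd_mul {φ : ℂ → ℝ} {A : ℂ → ℂ} {D : Set ℂ} (hD : IsOpen D) (hφ : ContDiff ℝ 1 φ)
    (hs : tsupport φ ⊆ D) (hA : DifferentiableOn ℂ A D) :
    ContDiff ℝ 1 (fun z => (φ z : ℂ) * A z) := by
  rw [contDiff_iff_contDiffAt]
  intro z
  by_cases hz : z ∈ D
  · have hA' : ContDiffAt ℝ 1 A z :=
      ((hA.contDiffOn hD).contDiffAt (hD.mem_nhds hz)).restrict_scalars ℝ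
    have h1 : ContDiffAt ℝ 1 (fun z => (φ z : ℂ)) z :=
      (Complex.ofRealCLM.contDiff.comp hφ).contDiffAt
    exact h1.mul hA'
  · have h1 : φ =ᶠ[𝓝 z] fun _ => 0 := notMem_tsupport_iff_eventuallyEq.1 (fun h => hz (hs h))
    have h2 : (fun z => (φ z : ℂ) * A z) =ᶠ[𝓝 z] fun _ => 0 := by
      filter_upwards [h1] with w hw
      rw [hw]; simp
    exact contDiffAt_const.congr_of_eventuallyEq h2

theorem ts_mul {φ : ℂ → ℝ} {A : ℂ → ℂ} : tsupport (fun z => (φ z : ℂ) * A z) ⊆ tsupport φ := by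
  apply closure_mono
  intro z hz
  rw [Function.mem_support] at hz ⊢
  intro h
  apply hz
  rw [h]; simp

theorem ts_fd {G : Type} [NormedAddCommGroup G] [NormedSpace ℝ G] {f : ℂ → G} (v : ℂ) : tsupport (fun z => fderiv ℝ f z v) ⊆ tsupport f := by
  apply closure_minimal _ (isClosed_tsupport f)
  intro z hz
  by_contra h
  apply hz
  have h1 : f =ᶠ[𝓝 z] fun _ => 0 := notMem_tsupport_iff_eventuallyEq.1 h
  show fderiv ℝ f z v = 0
  rw [h1.fderiv_eq]; simp

theorem int_fd {G : Type} [NormedAddCommGroup G] [NormedSpace ℝ G] {φ : ℂ → G}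
    (hφ : ContDiff ℝ 1 φ) (hc : HasCompactSupport φ) (v : ℂ) :
    Integrable (fun z => fderiv ℝ φ z v) := by
  apply Continuous.integrable_of_hasCompactSupport
  · exact (hφ.continuous_fderiv (by norm_num)).clm_apply continuous_const
  · exact IsCompact.of_isClosed_subset hc (isClosed_tsupport _) (ts_fd v)

theorem int_fd_zero {φ : ℂ → ℝ} (hφ : ContDiff ℝ 1 φ) (hc : HasCompactSupport φ) (v : ℂ) :
    ∫ z, fderiv ℝ φ z v = 0 := by
  have key : ∫ z, (1 : ℝ) * fderiv ℝ φ z v = - ∫ z, fderiv ℝ (fun _ : ℂ => (1 : ℝ)) z v * φ z := by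
    apply integral_mul_fderiv_eq_neg_fderiv_mul_of_integrable
    · simp
    · simpa using int_fd hφ hc v
    · simpa using hφ.continuous.integrable_of_hasCompactSupport hc
    · exact fun z _ => differentiableAt_const _
    · exact fun z _ => hφ.differentiable (by norm_num) z
  simpa using key

/-- the sets where the Cauchy transform is one branch -/
def EE (μ : Measure ℂ) {d : ℕ} (A : Fin d → ℂ → ℂ) (D : Set ℂ) (i : Fin d) : Set ℂ :=
  {z | z ∈ D ∧ CT μ z = A i z}

theorem meas_EE (μ : Measure ℂ) [IsFiniteMeasure μ] {d : ℕ} (A : Fin d → ℂ → ℂ) {D : Set ℂ}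
    (hD : IsOpen D) (hA : ∀ i, DifferentiableOn ℂ (A i) D) (i : Fin d) :
    MeasurableSet (EE μ A D i) := by
  classical
  have h1 : Measurable (D.piecewise (A i) (fun _ => (0 : ℂ))) :=
    ContinuousOn.measurable_piecewise (hA i).continuousOn continuousOn_const hD.measurableSet
  have h2 : EE μ A D i = D ∩ {z | CT μ z = D.piecewise (A i) (fun _ => (0 : ℂ)) z} := by
    ext z
    constructor
    · rintro ⟨hz, he⟩
      refine ⟨hz, ?_⟩
      show CT μ z = D.piecewise (A i) (fun _ => (0 : ℂ)) z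
      rw [Set.piecewise_eq_of_mem _ _ _ hz]
      exact he
    · rintro ⟨hz, he⟩
      refine ⟨hz, ?_⟩
      have he' : CT μ z = D.piecewise (A i) (fun _ => (0 : ℂ)) z := he
      rw [Set.piecewise_eq_of_mem _ _ _ hz] at he'
      exact he'
  rw [h2]
  exact hD.measurableSet.inter
    (measurableSet_eq_fun (Pool.Agent.H586R3.CT.measurable_CT μ) h1)

/-- integrals over the sets add up -/
theorem sum_EE {G : Type} [NormedAddCommGroup G] [NormedSpace ℝ G]
    (μ : Measure ℂ) [IsFiniteMeasure μ] {d : ℕ} (A : Fin d → ℂ → ℂ) {D : Set ℂ}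
    (hD : IsOpen D) (hA : ∀ i, DifferentiableOn ℂ (A i) D)
    (hne : ∀ i j, i ≠ j → ∀ z ∈ D, A i z ≠ A j z)
    (hcov : ∀ᵐ z : ℂ, z ∈ D → ∃ i, CT μ z = A i z)
    (f : Fin d → ℂ → G) (F : ℂ → G) (hf : ∀ i, IntegrableOn (f i) (EE μ A D i))
    (hfF : ∀ i z, z ∈ EE μ A D i → f i z = F z) (hF : ∀ z, z ∉ D → F z = 0) :
    ∑ i, ∫ z in EE μ A D i, f i z = ∫ z, F z := by
  classical
  have h1 : ∀ i, ∫ z in EE μ A D i, f i z = ∫ z, (EE μ A D i).indicator (f i) z := fun i =>
    (integral_indicator (meas_EE μ A hD hA i)).symm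
  rw [Finset.sum_congr rfl fun i _ => h1 i, ← integral_finsetSum]
  · apply integral_congr_ae
    filter_upwards [hcov] with z hz
    by_cases hzD : z ∈ D
    · obtain ⟨i, hi⟩ := hz hzD
      rw [Finset.sum_eq_single i]
      · rw [indicator_of_mem (show z ∈ EE μ A D i from ⟨hzD, hi⟩), hfF i z ⟨hzD, hi⟩]
      · intro j _ hji
        apply indicator_of_notMem
        rintro ⟨_, hj⟩
        exact hne j i hji z hzD (hj.symm.trans hi)
      · intro h
        exact absurd (Finset.mem_univ i) h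
    · rw [hF z hzD]
      apply Finset.sum_eq_zero
      intro i _
      apply indicator_of_notMem
      exact fun h => hzD h.1
  · intro i _
    exact (integrable_indicator_iff (meas_EE μ A hD hA i)).2 (hf i)

/-- the density formula for complex test functions -/
theorem dens_complex {μ : Measure ℂ} [IsFiniteMeasure μ] {E D' : Set ℂ} {P : ℂ → ℂ} {M : ℝ}
    (hP : Measurable P) (hPM : ∀ z, ‖P z‖ ≤ M)
    (h : ∀ φ : ℂ → ℝ, ContDiff ℝ 1 φ → HasCompactSupport φ → tsupport φ ⊆ D' → ∀ v : ℂ,
      - ∫ z in E, fderiv ℝ φ z v = ∫ z, φ z * (P z * v).re ∂μ)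
    {f : ℂ → ℂ} (hf : ContDiff ℝ 1 f) (hc : HasCompactSupport f) (hs : tsupport f ⊆ D') :
    ∫ z in E, (fderiv ℝ f z 1 + Complex.I * fderiv ℝ f z Complex.I) =
      - ∫ z, f z * conj (P z) ∂μ := by
  have hfd : ∀ z, DifferentiableAt ℝ f z := fun z => hf.differentiable (by norm_num) z
  set u : ℂ → ℝ := fun z => (f z).re with hu
  set w : ℂ → ℝ := fun z => (f z).im with hw
  have hu1 : ContDiff ℝ 1 u := Complex.reCLM.contDiff.comp hf
  have hw1 : ContDiff ℝ 1 w := Complex.imCLM.contDiff.comp hf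
  have hut : tsupport u ⊆ tsupport f := by
    apply closure_mono
    intro z hz
    rw [Function.mem_support] at hz ⊢
    intro h0
    apply hz
    rw [hu]; simp only; rw [h0]; rfl
  have hwt : tsupport w ⊆ tsupport f := by
    apply closure_mono
    intro z hz
    rw [Function.mem_support] at hz ⊢
    intro h0
    apply hz
    rw [hw]; simp only; rw [h0]; rfl
  have huc : HasCompactSupport u := IsCompact.of_isClosed_subset hc (isClosed_tsupport _) hut
  have hwc : HasCompactSupport w := IsCompact.of_isClosed_subset hc (isClosed_tsupport _) hwt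
  -- formula for one direction
  have hbd : ∀ v : ℂ, ∀ z, ‖(P z * v).re‖ ≤ M * ‖v‖ := by
    intro v z
    calc ‖(P z * v).re‖ = |(P z * v).re| := Real.norm_eq_abs _
      _ ≤ ‖P z * v‖ := Complex.abs_re_le_norm _
      _ = ‖P z‖ * ‖v‖ := norm_mul _ _
      _ ≤ M * ‖v‖ := mul_le_mul_of_nonneg_right (hPM z) (norm_nonneg _)
  have hmeas : ∀ v : ℂ, Measurable (fun z => (P z * v).re) := fun v =>
    Complex.measurable_re.comp (hP.mul_const v)
  have hiu : ∀ v : ℂ, Integrable (fun z => u z * (P z * v).re) μ := by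
    intro v
    obtain ⟨K, hK⟩ := huc.exists_bound_of_continuous hu1.continuous
    exact Integrable.mul_bdd (c := M * ‖v‖)
      (Integrable.of_bound hu1.continuous.aestronglyMeasurable K (Eventually.of_forall hK))
      (hmeas v).aestronglyMeasurable (Eventually.of_forall (hbd v))
  have hiw : ∀ v : ℂ, Integrable (fun z => w z * (P z * v).re) μ := by
    intro v
    obtain ⟨K, hK⟩ := hwc.exists_bound_of_continuous hw1.continuous
    exact Integrable.mul_bdd (c := M * ‖v‖)
      (Integrable.of_bound hw1.continuous.aestronglyMeasurable K (Eventually.of_forall hK))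
      (hmeas v).aestronglyMeasurable (Eventually.of_forall (hbd v))
  have hone : ∀ v : ℂ, ∫ z in E, fderiv ℝ f z v = - ∫ z, f z * ((P z * v).re : ℂ) ∂μ := by
    intro v
    have e1 : ∀ z, fderiv ℝ f z v = ((fderiv ℝ u z v : ℝ) : ℂ) +
        ((fderiv ℝ w z v : ℝ) : ℂ) * Complex.I := by
      intro z
      rw [hu, hw, fd_re (hfd z), fd_im (hfd z), Complex.re_add_im]
    have e2 : ∀ z, f z * ((P z * v).re : ℂ) = ((u z * (P z * v).re : ℝ) : ℂ) +
        ((w z * (P z * v).re : ℝ) : ℂ) * Complex.I := by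
      intro z
      rw [Complex.ofReal_mul, Complex.ofReal_mul]
      conv_lhs => rw [← Complex.re_add_im (f z)]
      ring
    have i1 : IntegrableOn (fun z => ((fderiv ℝ u z v : ℝ) : ℂ)) E :=
      (int_fd hu1 huc v).ofReal.integrableOn
    have i2 : IntegrableOn (fun z => ((fderiv ℝ w z v : ℝ) : ℂ) * Complex.I) E :=
      ((int_fd hw1 hwc v).ofReal.mul_const Complex.I).integrableOn
    have j1 : Integrable (fun z => ((u z * (P z * v).re : ℝ) : ℂ)) μ := (hiu v).ofReal
    have j2 : Integrable (fun z => ((w z * (P z * v).re : ℝ) : ℂ) * Complex.I) μ :=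
      (hiw v).ofReal.mul_const Complex.I
    rw [integral_congr_ae (Eventually.of_forall e1), integral_add i1 i2, integral_mul_const,
      integral_complex_ofReal, integral_complex_ofReal,
      integral_congr_ae (Eventually.of_forall e2),
      integral_add j1 j2, integral_mul_const,
      integral_complex_ofReal, integral_complex_ofReal,
      ← h u hu1 huc (hut.trans hs) v, ← h w hw1 hwc (hwt.trans hs) v]
    push_cast
    ring
  have hif : ∀ v : ℂ, Integrable (fun z => fderiv ℝ f z v) := by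
    intro v
    have e1 : (fun z => fderiv ℝ f z v) = fun z => ((fderiv ℝ u z v : ℝ) : ℂ) +
        ((fderiv ℝ w z v : ℝ) : ℂ) * Complex.I := by
      funext z
      rw [hu, hw, fd_re (hfd z), fd_im (hfd z), Complex.re_add_im]
    rw [e1]
    exact (int_fd hu1 huc v).ofReal.add ((int_fd hw1 hwc v).ofReal.mul_const Complex.I)
  have hifP : ∀ v : ℂ, Integrable (fun z => f z * ((P z * v).re : ℂ)) μ := by
    intro v
    have e2 : (fun z => f z * ((P z * v).re : ℂ)) = fun z => ((u z * (P z * v).re : ℝ) : ℂ) +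
        ((w z * (P z * v).re : ℝ) : ℂ) * Complex.I := by
      funext z
      rw [Complex.ofReal_mul, Complex.ofReal_mul]
      conv_lhs => rw [← Complex.re_add_im (f z)]
      ring
    rw [e2]
    exact (hiu v).ofReal.add ((hiw v).ofReal.mul_const Complex.I)
  rw [integral_add (hif 1).integrableOn ((hif Complex.I).const_mul Complex.I).integrableOn,
    integral_const_mul, hone 1, hone Complex.I]
  have e3 : ∀ z, f z * conj (P z) = f z * ((P z * 1).re : ℂ) +
      Complex.I * (f z * ((P z * Complex.I).re : ℂ)) := by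
    intro z
    have : conj (P z) = ((P z * 1).re : ℂ) + Complex.I * ((P z * Complex.I).re : ℂ) := by
      apply Complex.ext <;> simp
    rw [this]; ring
  rw [integral_congr_ae (Eventually.of_forall e3), integral_add (hifP 1)
    ((hifP Complex.I).const_mul Complex.I), integral_const_mul]
  ring

/-- the weak equation of the Cauchy transform for real test functions -/
theorem weak_real (μ : Measure ℂ) [IsFiniteMeasure μ] {φ : ℂ → ℝ} (hφ : ContDiff ℝ 1 φ)
    (hc : HasCompactSupport φ) :
    ∫ z, CT μ z * (((fderiv ℝ φ z 1 : ℝ) : ℂ) + Complex.I * ((fderiv ℝ φ z Complex.I : ℝ) : ℂ)) =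
      - (2 * Real.pi * ∫ z, (φ z : ℂ) ∂μ) := by
  have hφd : ∀ z, DifferentiableAt ℝ φ z := fun z => hφ.differentiable (by norm_num) z
  set ψ : ℂ → ℂ := fun z => (φ (-z) : ℂ) with hψdef
  have hψ : ContDiff ℝ 1 ψ := Complex.ofRealCLM.contDiff.comp (hφ.comp contDiff_neg)
  have hψc : HasCompactSupport ψ := by
    have h1 : HasCompactSupport (fun z : ℂ => φ (-z)) :=
      hc.comp_homeomorph (Homeomorph.neg ℂ)
    exact h1.comp_left (g := fun x : ℝ => (x : ℂ)) (by simp)
  have h := Pool.Agent.H586R3.CT.weak_CT μ hψ hψc 0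
  have hd : ∀ w v : ℂ, fderiv ℝ ψ (0 - w) v = -((fderiv ℝ φ w v : ℝ) : ℂ) := by
    intro w v
    have h1 : HasFDerivAt (fun z : ℂ => -z) (-ContinuousLinearMap.id ℝ ℂ) (0 - w) :=
      (hasFDerivAt_id _).neg
    have h2 : HasFDerivAt φ (fderiv ℝ φ w) (-(0 - w)) := by
      rw [zero_sub, neg_neg]; exact (hφd w).hasFDerivAt
    have h3 : HasFDerivAt ψ (Complex.ofRealCLM.comp ((fderiv ℝ φ w).comp
        (-ContinuousLinearMap.id ℝ ℂ))) (0 - w) :=
      (Complex.ofRealCLM.hasFDerivAt).comp _ (h2.comp _ h1)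
    rw [h3.fderiv]
    simp
  have e1 : ∀ w, CT μ w * dbar ψ (0 - w) = (-1 / 2 : ℂ) * (CT μ w *
      (((fderiv ℝ φ w 1 : ℝ) : ℂ) + Complex.I * ((fderiv ℝ φ w Complex.I : ℝ) : ℂ))) := by
    intro w
    rw [dbar, hd, hd]; ring
  have e2 : ∀ ζ, ψ (0 - ζ) = (φ ζ : ℂ) := by
    intro ζ
    rw [hψdef]; simp only; rw [zero_sub, neg_neg]
  rw [integral_congr_ae (Eventually.of_forall e1), integral_const_mul,
    integral_congr_ae (Eventually.of_forall e2)] at h
  linear_combination (-2 : ℂ) * h

theorem fd_mul {φ : ℂ → ℝ} {A : ℂ → ℂ} {z : ℂ} (hφ : DifferentiableAt ℝ φ z)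
    (hA : DifferentiableAt ℂ A z) (v : ℂ) :
    fderiv ℝ (fun z => (φ z : ℂ) * A z) z v =
      ((fderiv ℝ φ z v : ℝ) : ℂ) * A z + φ z * (deriv A z * v) := by
  have h1 : HasFDerivAt (fun z => (φ z : ℂ)) (Complex.ofRealCLM.comp (fderiv ℝ φ z)) z :=
    (Complex.ofRealCLM.hasFDerivAt (x := φ z)).comp z hφ.hasFDerivAt
  have h2 := hA.hasDerivAt.hasFDerivAt.restrictScalars ℝ
  have h3 : HasFDerivAt (fun z => (φ z : ℂ) * A z) _ z := h1.mul h2
  rw [h3.fderiv]
  simp
  ring

theorem zero_of_int (hABS : S_ABS) {μ : Measure ℂ} [IsFiniteMeasure μ] {D' : Set ℂ}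
    (hD' : IsOpen D') {σ : ℂ → ℝ} {M : ℝ} (hσ : Measurable σ) (hb : ∀ z, |σ z| ≤ M)
    (h : ∀ φ : ℂ → ℝ, ContDiff ℝ 1 φ → HasCompactSupport φ → tsupport φ ⊆ D' →
      ∫ z, φ z * σ z ∂μ = 0) : ∀ᵐ z ∂μ, z ∈ D' → σ z = 0 := by
  have hM : 0 ≤ M := (abs_nonneg _).trans (hb 0)
  have h1 := hABS μ D' σ (fun _ => 0) M hD' hσ measurable_const hb (fun z => by simpa using hM)
    (fun φ h1 h2 h3 => by rw [h φ h1 h2 h3]; simp)
  filter_upwards [h1] with z hz hzD
  exact abs_eq_zero.1 (le_antisymm (hz hzD) (abs_nonneg _))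

theorem main : S_ABS → S_REL := by
  intro hABS μ _ d A P z₁ r r' M hr' hrr hA hne hcov hPm hPM hdens
  classical
  have hD : IsOpen (ball z₁ r) := isOpen_ball
  have hD'D : ball z₁ r' ⊆ ball z₁ r := ball_subset_ball hrr.le
  -- (a)
  have ha : ∀ v : ℂ, ∀ᵐ z ∂μ, z ∈ ball z₁ r' → ((∑ i, P i z) * v).re = 0 := by
    intro v
    have hm : Measurable (fun z => ((∑ i, P i z) * v).re) :=
      Complex.measurable_re.comp ((Finset.measurable_sum _ fun i _ => hPm i).mul_const v)
    refine zero_of_int (M := (∑ _i : Fin d, M) * ‖v‖) hABS isOpen_ball hm ?_ ?_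
    · intro z
      calc |((∑ i, P i z) * v).re| ≤ ‖(∑ i, P i z) * v‖ := Complex.abs_re_le_norm _
        _ = ‖∑ i, P i z‖ * ‖v‖ := norm_mul _ _
        _ ≤ (∑ _i : Fin d, M) * ‖v‖ := by
          apply mul_le_mul_of_nonneg_right _ (norm_nonneg _)
          exact (norm_sum_le _ _).trans (Finset.sum_le_sum fun i _ => hPM i z)
    · intro φ hφ hc hs
      obtain ⟨K, hK⟩ := hc.exists_bound_of_continuous hφ.continuous
      have hi : ∀ i, Integrable (fun z => φ z * (P i z * v).re) μ := by
        intro i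
        refine Integrable.mul_bdd (c := M * ‖v‖)
          (Integrable.of_bound hφ.continuous.aestronglyMeasurable K (Eventually.of_forall hK))
          (Complex.measurable_re.comp ((hPm i).mul_const v)).aestronglyMeasurable
          (Eventually.of_forall fun z => ?_)
        calc ‖(P i z * v).re‖ = |(P i z * v).re| := Real.norm_eq_abs _
          _ ≤ ‖P i z * v‖ := Complex.abs_re_le_norm _
          _ = ‖P i z‖ * ‖v‖ := norm_mul _ _
          _ ≤ M * ‖v‖ := mul_le_mul_of_nonneg_right (hPM i z) (norm_nonneg _)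
      have e1 : ∀ z, φ z * ((∑ i, P i z) * v).re = ∑ i, φ z * (P i z * v).re := by
        intro z
        rw [Finset.sum_mul, Complex.re_sum, Finset.mul_sum]
      rw [integral_congr_ae (Eventually.of_forall e1), integral_finsetSum _ fun i _ => hi i]
      have e2 : ∀ i, ∫ z, φ z * (P i z * v).re ∂μ = - ∫ z in EE μ A (ball z₁ r) i,
          fderiv ℝ φ z v := fun i => (hdens i φ hφ hc hs v).symm
      rw [Finset.sum_congr rfl fun i _ => e2 i, Finset.sum_neg_distrib,
        sum_EE μ A hD hA hne hcov (fun _ z => fderiv ℝ φ z v) (fun z => fderiv ℝ φ z v)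
          (fun i => (int_fd hφ hc v).integrableOn) (fun _ _ _ => rfl), int_fd_zero hφ hc v, neg_zero]
      intro z hz
      have hzt : z ∉ tsupport (fun z => fderiv ℝ φ z v) :=
        fun h => hz (hD'D (hs (ts_fd v h)))
      exact image_eq_zero_of_notMem_tsupport (f := fun z => fderiv ℝ φ z v) hzt
  -- (b)
  have hKi : ∀ i, ∃ K : ℝ, ∀ z ∈ closedBall z₁ r', ‖A i z‖ ≤ K := fun i =>
    (isCompact_closedBall z₁ r').exists_bound_of_continuousOn
      ((hA i).continuousOn.mono (closedBall_subset_ball hrr))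
  choose K hK using hKi
  set A' : Fin d → ℂ → ℂ := fun i => (ball z₁ r').indicator (A i) with hA'def
  have hA'm : ∀ i, Measurable (A' i) := by
    intro i
    have h1 : Measurable ((ball z₁ r').piecewise (A i) (fun _ => (0 : ℂ))) :=
      ContinuousOn.measurable_piecewise ((hA i).continuousOn.mono hD'D) continuousOn_const
        measurableSet_ball
    have h2 : A' i = (ball z₁ r').piecewise (A i) (fun _ => (0 : ℂ)) := by
      funext z
      by_cases hz : z ∈ ball z₁ r'
      · rw [hA'def]; simp only; rw [indicator_of_mem hz, Set.piecewise_eq_of_mem _ _ _ hz]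
      · rw [hA'def]; simp only; rw [indicator_of_notMem hz, Set.piecewise_eq_of_notMem _ _ _ hz]
    rw [h2]; exact h1
  have hA'b : ∀ i z, ‖A' i z‖ ≤ |K i| := by
    intro i z
    by_cases hz : z ∈ ball z₁ r'
    · rw [hA'def]; simp only; rw [indicator_of_mem hz]
      exact (hK i z (ball_subset_closedBall hz)).trans (le_abs_self _)
    · rw [hA'def]; simp only; rw [indicator_of_notMem hz, norm_zero]
      exact abs_nonneg _
  set B : ℂ → ℂ := fun z => ∑ i, A' i z * conj (P i z) - ((2 * Real.pi : ℝ) : ℂ) with hB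
  have hPc : ∀ i, Measurable (fun z => conj (P i z)) := fun i =>
    Complex.continuous_conj.measurable.comp (hPm i)
  have hBm : Measurable B :=
    (Finset.measurable_sum _ fun i _ => (hA'm i).mul (hPc i)).sub measurable_const
  set N : ℝ := ∑ i, |K i| * M + ‖((2 * Real.pi : ℝ) : ℂ)‖ with hN
  have hBb : ∀ z, ‖B z‖ ≤ N := by
    intro z
    refine (norm_sub_le _ _).trans (add_le_add ?_ le_rfl)
    refine (norm_sum_le _ _).trans (Finset.sum_le_sum fun i _ => ?_)
    rw [norm_mul]
    apply mul_le_mul (hA'b i z) _ (norm_nonneg _) (abs_nonneg _)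
    rw [RCLike.norm_conj]; exact hPM i z
  have hint : ∀ φ : ℂ → ℝ, ContDiff ℝ 1 φ → HasCompactSupport φ → tsupport φ ⊆ ball z₁ r' →
      ∫ z, (φ z : ℂ) * B z ∂μ = 0 := by
    intro φ hφ hc hs
    have hφd : ∀ z, DifferentiableAt ℝ φ z := fun z => hφ.differentiable (by norm_num) z
    have hsD : tsupport φ ⊆ ball z₁ r := hs.trans hD'D
    have hfC : ∀ i, ContDiff ℝ 1 (fun z => (φ z : ℂ) * A i z) := fun i =>
      cd_mul hD hφ hsD (hA i)
    have hfc : ∀ i, HasCompactSupport (fun z => (φ z : ℂ) * A i z) := fun i =>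
      IsCompact.of_isClosed_subset hc (isClosed_tsupport _) ts_mul
    have hden : ∀ i, ∫ z in EE μ A (ball z₁ r) i,
        (fderiv ℝ (fun z => (φ z : ℂ) * A i z) z 1 +
          Complex.I * fderiv ℝ (fun z => (φ z : ℂ) * A i z) z Complex.I) =
        - ∫ z, (φ z : ℂ) * A i z * conj (P i z) ∂μ := fun i =>
      dens_complex (hPm i) (hPM i) (hdens i) (hfC i) (hfc i) (ts_mul.trans hs)
    have hsum := sum_EE μ A hD hA hne hcov
      (fun i z => fderiv ℝ (fun z => (φ z : ℂ) * A i z) z 1 +
          Complex.I * fderiv ℝ (fun z => (φ z : ℂ) * A i z) z Complex.I)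
      (fun z => CT μ z * (((fderiv ℝ φ z 1 : ℝ) : ℂ) +
        Complex.I * ((fderiv ℝ φ z Complex.I : ℝ) : ℂ)))
      (fun i => ((int_fd (hfC i) (hfc i) 1).add
        ((int_fd (hfC i) (hfc i) Complex.I).const_mul Complex.I)).integrableOn)
      (by
        rintro i z ⟨hz, he⟩
        have hAd : DifferentiableAt ℂ (A i) z := (hA i).differentiableAt (hD.mem_nhds hz)
        rw [fd_mul (hφd z) hAd, fd_mul (hφd z) hAd, he]
        have hI := Complex.I_mul_I
        linear_combination ((φ z : ℂ) * deriv (A i) z) * hI)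
      (by
        intro z hz
        have hzt : ∀ v : ℂ, fderiv ℝ φ z v = 0 := by
          intro v
          have hzt : z ∉ tsupport (fun z => fderiv ℝ φ z v) :=
            fun h => hz (hsD (ts_fd v h))
          exact image_eq_zero_of_notMem_tsupport (f := fun z => fderiv ℝ φ z v) hzt
        rw [hzt, hzt]; simp)
    rw [weak_real μ hφ hc, Finset.sum_congr rfl fun i _ => hden i, Finset.sum_neg_distrib] at hsum
    -- the integral of `φ B`
    obtain ⟨Kφ, hKφ⟩ := hc.exists_bound_of_continuous hφ.continuous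
    have hφi : Integrable (fun z => (φ z : ℂ)) μ := by
      have : Integrable φ μ :=
        Integrable.of_bound hφ.continuous.aestronglyMeasurable Kφ (Eventually.of_forall hKφ)
      exact this.ofReal
    have hi : ∀ i, Integrable (fun z => (φ z : ℂ) * A i z * conj (P i z)) μ := by
      intro i
      obtain ⟨K2, hK2⟩ := (hfc i).exists_bound_of_continuous (hfC i).continuous
      refine Integrable.mul_bdd (c := M)
        (Integrable.of_bound (hfC i).continuous.aestronglyMeasurable K2 (Eventually.of_forall hK2))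
        (hPc i).aestronglyMeasurable (Eventually.of_forall fun z => ?_)
      rw [RCLike.norm_conj]; exact hPM i z
    have e1 : ∀ z, (φ z : ℂ) * B z = ∑ i, (φ z : ℂ) * A i z * conj (P i z) -
        ((2 * Real.pi : ℝ) : ℂ) * (φ z : ℂ) := by
      intro z
      rw [hB]
      simp only
      rw [mul_sub, Finset.mul_sum, mul_comm (φ z : ℂ) ((2 * Real.pi : ℝ) : ℂ)]
      congr 1
      apply Finset.sum_congr rfl
      intro i _
      by_cases hz : z ∈ ball z₁ r'
      · rw [hA'def]; simp only; rw [indicator_of_mem hz]; ring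
      · have h0 : φ z = 0 := image_eq_zero_of_notMem_tsupport (fun h => hz (hs h))
        rw [h0]; simp
    rw [integral_congr_ae (Eventually.of_forall e1),
      integral_sub (integrable_finsetSum _ fun i _ => hi i) (hφi.const_mul _),
      integral_finsetSum _ fun i _ => hi i, integral_const_mul]
    push_cast
    linear_combination -hsum
  have hintB : ∀ φ : ℂ → ℝ, ContDiff ℝ 1 φ → HasCompactSupport φ →
      Integrable (fun z => (φ z : ℂ) * B z) μ := by
    intro φ hφ hc
    obtain ⟨Kφ, hKφ⟩ := hc.exists_bound_of_continuous hφ.continuous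
    have hφi : Integrable (fun z => (φ z : ℂ)) μ := by
      have : Integrable φ μ :=
        Integrable.of_bound hφ.continuous.aestronglyMeasurable Kφ (Eventually.of_forall hKφ)
      exact this.ofReal
    exact Integrable.mul_bdd (c := N) hφi hBm.aestronglyMeasurable (Eventually.of_forall hBb)
  have hbre : ∀ᵐ z ∂μ, z ∈ ball z₁ r' → (B z).re = 0 := by
    refine zero_of_int (M := N) hABS isOpen_ball (Complex.measurable_re.comp hBm)
      (fun z => (Complex.abs_re_le_norm _).trans (hBb z)) ?_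
    intro φ hφ hc hs
    have h1 := Complex.reCLM.integral_comp_comm (hintB φ hφ hc)
    rw [hint φ hφ hc hs, map_zero] at h1
    rw [← h1]
    apply integral_congr_ae
    refine Eventually.of_forall fun z => ?_
    simp
  have hbim : ∀ᵐ z ∂μ, z ∈ ball z₁ r' → (B z).im = 0 := by
    refine zero_of_int (M := N) hABS isOpen_ball (Complex.measurable_im.comp hBm)
      (fun z => (Complex.abs_im_le_norm _).trans (hBb z)) ?_
    intro φ hφ hc hs
    have h1 := Complex.imCLM.integral_comp_comm (hintB φ hφ hc)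
    rw [hint φ hφ hc hs, map_zero] at h1
    rw [← h1]
    apply integral_congr_ae
    refine Eventually.of_forall fun z => ?_
    simp
  filter_upwards [ha 1, ha Complex.I, hbre, hbim] with z h1 h2 h3 h4 hz
  constructor
  · have g1 := h1 hz
    have g2 := h2 hz
    apply Complex.ext
    · simpa using g1
    · simpa using g2
  · have g3 := h3 hz
    have g4 := h4 hz
    have hBz : B z = 0 := Complex.ext g3 g4
    rw [hB] at hBz
    simp only at hBz
    have e : ∀ i, A' i z = A i z := by
      intro i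
      rw [hA'def]; simp only; rw [indicator_of_mem hz]
    rw [Finset.sum_congr rfl fun i _ => by rw [e i]] at hBz
    exact sub_eq_zero.1 hBz

end Pool.Agent.W637.CQ.REL
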